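import Mathlib

/-! Regular points of real analytic sets are dense. -/

open Set Filter Topology Metric

namespace Pool.Agent.N317.FX

set_option linter.unusedSectionVars false

variable {E W : Type*} [NormedAddCommGroup E] [NormedSpace ℝ E] [FiniteDimensional ℝ E]
  [NormedAddCommGroup W] [NormedSpace ℝ W] [FiniteDimensional ℝ W]

/-- `q` is a point of `F` at which `F` is tangent to `q + T` -/
structure Reg (F : Set E) (T : Submodule ℝ E) (q : E) : Prop where
  mem : q ∈ F
  lower : ∀ ε > 0, ∃ r > 0, ∀ u ∈ T, ‖u‖ ≤ r → ∃ x ∈ F, ‖x - (q + u)‖ ≤ ε * ‖u‖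
  upper : ∀ ε > 0, ∃ r > 0, ∀ x ∈ F, ‖x - q‖ ≤ r → ∃ u ∈ T, ‖x - q - u‖ ≤ ε * ‖x - q‖

def PP (h : E → W) (V : Set E) (r : ℕ) : Prop :=
  ∃ p ∈ V, h p = 0 ∧ ∃ g : E → (Fin r → ℝ), AnalyticAt ℝ g p ∧
    (∀ᶠ x in 𝓝 p, h x = 0 → g x = 0) ∧ Function.Surjective (fderiv ℝ g p)

lemma PP_le {h : E → W} {V : Set E} {r : ℕ} (H : PP h V r) : r ≤ Module.finrank ℝ E := by
  obtain ⟨p, _, _, g, _, _, hs⟩ := H
  have := LinearMap.finrank_le_finrank_of_surjective (f := (fderiv ℝ g p : E →ₗ[ℝ] (Fin r → ℝ))) hs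
  simpa using this

lemma PP_zero {h : E → W} {V : Set E} {p : E} (hp : p ∈ V) (h0 : h p = 0) : PP h V 0 := by
  refine ⟨p, hp, h0, fun _ => 0, analyticAt_const, ?_, ?_⟩
  · exact Eventually.of_forall fun x _ => rfl
  · intro y; exact ⟨0, Subsingleton.elim _ _⟩

lemma exists_max {h : E → W} {V : Set E} {p : E} (hp : p ∈ V) (h0 : h p = 0) :
    ∃ r, PP h V r ∧ ¬ PP h V (r + 1) := by
  by_contra hcon
  push Not at hcon
  have hall : ∀ r, PP h V r := by
    intro r
    induction r with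
    | zero => exact PP_zero hp h0
    | succ n ih => exact hcon n ih
  have := PP_le (hall (Module.finrank ℝ E + 1))
  omega

/-- all derivatives zero -/
lemma eventually_zero_of_iteratedFDeriv {f : E → W} {x : E} (hf : AnalyticAt ℝ f x)
    (h : ∀ n, iteratedFDeriv ℝ n f x = 0) : ∀ᶠ y in 𝓝 x, f y = 0 := by
  obtain ⟨p, r, hp⟩ := hf
  have hball : Metric.eball x r ∈ 𝓝 x := Metric.eball_mem_nhds x hp.r_pos
  filter_upwards [hball] with y hy
  have hs := hp.hasSum (y := y - x) (by
    rw [Metric.mem_eball, edist_eq_enorm_sub] at hy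
    simpa using hy)
  have hz : ∀ n, (p n fun _ => y - x) = 0 := by
    intro n
    have h1 := hp.factorial_smul (y - x) n
    rw [h n] at h1
    simp only [zero_apply] at h1
    have h2 : (n.factorial : ℝ) • (p n fun _ => y - x) = 0 := by
      rw [← h1]; simp [Nat.cast_smul_eq_nsmul]
    exact (smul_eq_zero.1 h2).resolve_left (by positivity)
  simp only [hz, add_sub_cancel] at hs
  exact hs.unique hasSum_zero


/-- local coordinates at a point of maximal rank -/
theorem exists_reg {h : E → W} (hh : ∀ x, AnalyticAt ℝ h x) {V : Set E} (hV : IsOpen V) {p₀ : E}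
    (hp₀ : p₀ ∈ V) (h0 : h p₀ = 0) :
    ∃ q ∈ V, ∃ T : Submodule ℝ E, Reg {x | h x = 0} T q := by
  obtain ⟨r, ⟨p, hpV, hp0, g, hga, hgz, hgs⟩, hmax⟩ := exists_max hp₀ h0
  set L : E →L[ℝ] (Fin r → ℝ) := fderiv ℝ g p with hL
  set T : Submodule ℝ E := LinearMap.ker (L : E →ₗ[ℝ] (Fin r → ℝ)) with hT
  have hTL : ∀ x, x ∈ T ↔ L x = 0 := fun x => by simp [hT]
  obtain ⟨π, hπ⟩ : T.ClosedComplemented := Submodule.ClosedComplemented.of_finiteDimensional_quotient
    (Submodule.closed_of_finiteDimensional T)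
  -- the derivative of the coordinates
  have hbij : Function.Bijective (L.prod π) := by
    constructor
    · rw [injective_iff_map_eq_zero]
      intro x hx
      simp only [ContinuousLinearMap.prod_apply, Prod.mk_eq_zero] at hx
      have hxT : x ∈ T := (hTL x).2 hx.1
      have := hπ ⟨x, hxT⟩
      rw [hx.2] at this
      exact (congrArg Subtype.val this).symm
    · rintro ⟨s, t⟩
      obtain ⟨x1, hx1⟩ := hgs s
      refine ⟨x1 - (π x1 : E) + t, ?_⟩
      have h1 : L (π x1 : E) = 0 := (hTL _).1 (π x1).2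
      have h2 : L (t : E) = 0 := (hTL _).1 t.2
      simp only [ContinuousLinearMap.prod_apply, map_add, map_sub, hπ, h1, h2]
      simp [hx1]
  let e : E ≃L[ℝ] (Fin r → ℝ) × T :=
    (LinearEquiv.ofBijective (L.prod π : E →ₗ[ℝ] (Fin r → ℝ) × T) hbij).toContinuousLinearEquiv
  have he : (e : E →L[ℝ] (Fin r → ℝ) × T) = L.prod π := by ext x <;> rfl
  set Φ : E → (Fin r → ℝ) × T := fun x => (g x, π (x - p)) with hΦ
  have hΦa : AnalyticAt ℝ Φ p := by
    refine hga.prod ?_
    exact (π.analyticAt _).comp (analyticAt_id.sub analyticAt_const)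
  have hgd : HasStrictFDerivAt g L p := by
    rw [hL]; exact hga.hasStrictFDerivAt
  have hπd : ∀ x, HasStrictFDerivAt (fun x => π (x - p)) π x := by
    intro x
    have := π.hasStrictFDerivAt (x := x - p)
    have h2 : HasStrictFDerivAt (fun x : E => x - p) (ContinuousLinearMap.id ℝ E) x :=
      (hasStrictFDerivAt_id x).sub_const p
    simpa using this.comp x h2
  have hΦd : HasStrictFDerivAt Φ (e : E →L[ℝ] (Fin r → ℝ) × T) p := by
    rw [he]
    exact hgd.prodMk (hπd p)
  have hgp : g p = 0 := hgz.self_of_nhds hp0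
  have hΦp : Φ p = (0, 0) := by simp [hΦ, hgp]
  set Ψ := hΦd.localInverse Φ e p with hΨ
  have hΨa : AnalyticAt ℝ Ψ (0, 0) := by
    have := (hΦd.toOpenPartialHomeomorph Φ).analyticAt_symm' (a := p) (i := e)
      (hΦd.mem_toOpenPartialHomeomorph_source) (by simpa using hΦa) (by
        simpa using hΦd.hasFDerivAt.fderiv)
    rw [hΦd.toOpenPartialHomeomorph_coe, hΦp] at this
    exact this
  have hl : ∀ᶠ x in 𝓝 p, Ψ (Φ x) = x := hΦd.eventually_left_inverse
  have hr : ∀ᶠ y in 𝓝 ((0 : Fin r → ℝ), (0 : T)), Φ (Ψ y) = y := by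
    rw [← hΦp]; exact hΦd.eventually_right_inverse
  have hΨ0 : Ψ (0, 0) = p := by
    have := hΦd.localInverse_apply_image
    rw [hΦp] at this
    exact this
  set ψ : T → E := fun t => Ψ (0, t) with hψ
  have hin : Continuous fun t : T => ((0 : Fin r → ℝ), t) := by fun_prop
  have hin0 : Tendsto (fun t : T => ((0 : Fin r → ℝ), t)) (𝓝 0) (𝓝 (0, 0)) := hin.tendsto 0
  have hψt : Tendsto ψ (𝓝 0) (𝓝 p) := by
    have := hΨa.continuousAt.tendsto.comp hin0
    rwa [hΨ0] at this
  -- good parameters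
  have hQ : ∀ᶠ t in 𝓝 (0 : T), AnalyticAt ℝ Ψ (0, t) ∧ (∀ᶠ y in 𝓝 ((0 : Fin r → ℝ), t), Φ (Ψ y) = y)
      ∧ AnalyticAt ℝ g (ψ t) ∧ ψ t ∈ V ∧ (∀ᶠ x in 𝓝 (ψ t), h x = 0 → g x = 0) ∧
      (∀ᶠ x in 𝓝 (ψ t), Ψ (Φ x) = x) := by
    refine (hin0.eventually hΨa.eventually_analyticAt).and ((hin0.eventually
      hr.eventually_nhds).and ((hψt.eventually hga.eventually_analyticAt).and
      ((hψt.eventually (hV.mem_nhds hpV)).and ((hψt.eventually hgz.eventually_nhds).and
      (hψt.eventually hl.eventually_nhds)))))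
  obtain ⟨ρ, hρ, hball⟩ := Metric.eventually_nhds_iff_ball.1 hQ
  have hder : ∀ t ∈ ball (0 : T) ρ, ∀ s v, fderiv ℝ g (ψ t) (fderiv ℝ Ψ (0, t) (s, v)) = s ∧
      π (fderiv ℝ Ψ (0, t) (s, v)) = v := by
    intro t ht s v
    obtain ⟨h1, h2, h3, -, -, -⟩ := hball t ht
    have h1d : HasFDerivAt Ψ (fderiv ℝ Ψ (0, t)) (0, t) := h1.differentiableAt.hasFDerivAt
    have h3d : HasFDerivAt g (fderiv ℝ g (ψ t)) (Ψ (0, t)) := h3.differentiableAt.hasFDerivAt
    have hc : HasFDerivAt (fun y => Φ (Ψ y))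
        (((fderiv ℝ g (ψ t)).prod π).comp (fderiv ℝ Ψ (0, t))) (0, t) := by
      have h4 : HasFDerivAt Φ ((fderiv ℝ g (ψ t)).prod π) (Ψ (0, t)) :=
        h3d.prodMk (hπd _).hasFDerivAt
      exact h4.comp (0, t) h1d
    have hid : HasFDerivAt (fun y => Φ (Ψ y)) (ContinuousLinearMap.id ℝ ((Fin r → ℝ) × T)) (0, t) :=
      (hasFDerivAt_id (0, t)).congr_of_eventuallyEq h2
    have := hc.unique hid
    have h5 := congrArg (fun A => A (s, v)) this
    simp only [ContinuousLinearMap.comp_apply, ContinuousLinearMap.prod_apply,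
      ContinuousLinearMap.id_apply, Prod.mk.injEq] at h5
    exact h5
  have hψa : ∀ t ∈ ball (0 : T) ρ, AnalyticAt ℝ ψ t := by
    intro t ht
    have h1 := (hball t ht).1
    have h2 : AnalyticAt ℝ (fun t : T => ((0 : Fin r → ℝ), t)) t := analyticAt_const.prod analyticAt_id
    exact h1.comp h2
  have hψΦ : ∀ t ∈ ball (0 : T) ρ, Φ (ψ t) = (0, t) := fun t ht => (hball t ht).2.1.self_of_nhds
  set H : T → W := fun t => h (ψ t) with hH
  have hHa : AnalyticOnNhd ℝ H (ball (0 : T) ρ) := fun t ht => (hh _).comp (hψa t ht)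
  have hψ0 : ψ 0 = p := hΨ0
  have key : ∀ᶠ t in 𝓝 (0 : T), H t = 0 := by
    by_contra hne
    apply hmax
    have hnz : ∀ t ∈ ball (0 : T) ρ, ¬ ∀ᶠ s in 𝓝 t, H s = 0 := by
      intro t ht hz
      apply hne
      have := hHa.eqOn_zero_of_preconnected_of_eventuallyEq_zero
        (convex_ball _ _).isPreconnected ht hz
      filter_upwards [ball_mem_nhds (0 : T) hρ] with s hs using this hs
    have hex : ∃ m, ∃ t ∈ ball (0 : T) ρ, H t = 0 ∧ iteratedFDeriv ℝ m H t ≠ 0 := by
      by_contra hall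
      push Not at hall
      refine hnz 0 (mem_ball_self hρ) (eventually_zero_of_iteratedFDeriv
        (hHa 0 (mem_ball_self hρ)) fun n => hall n 0 (mem_ball_self hρ) ?_)
      simp [hH, hψ0, hp0]
    classical
    obtain ⟨t', ht', hHt', hm⟩ := Nat.find_spec hex
    have hmin : ∀ m < Nat.find hex, ∀ t ∈ ball (0 : T) ρ, H t = 0 → iteratedFDeriv ℝ m H t = 0 := by
      intro m hm t ht hHt
      by_contra hc
      exact Nat.find_min hex hm ⟨t, ht, hHt, hc⟩
    generalize Nat.find hex = m at hm hmin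
    cases m with
    | zero =>
      refine absurd ?_ hm
      have : ‖iteratedFDeriv ℝ 0 H t'‖ = 0 := by rw [norm_iteratedFDeriv_zero, hHt', norm_zero]
      exact norm_eq_zero.1 this
    | succ m =>
      set K := iteratedFDeriv ℝ m H with hK
      have hKz : ∀ t ∈ ball (0 : T) ρ, H t = 0 → K t = 0 := fun t ht => hmin m (Nat.lt_succ_self m) t ht
      have hKa : AnalyticAt ℝ K t' :=
        (hHa.iteratedFDeriv_of_isOpen isOpen_ball m) t' ht'
      have hKd : fderiv ℝ K t' ≠ 0 := by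
        intro h0
        apply hm
        ext w
        rw [iteratedFDeriv_succ_apply_left, ← hK, h0]
        rfl
      obtain ⟨v, hv⟩ : ∃ v, fderiv ℝ K t' v ≠ 0 := by
        by_contra hall
        push Not at hall
        exact hKd (ContinuousLinearMap.ext hall)
      obtain ⟨ℓ, hℓ⟩ := SeparatingDual.exists_ne_zero (R := ℝ) hv
      set k : T → ℝ := fun t => ℓ (K t) with hk
      have hka : AnalyticAt ℝ k t' := (ℓ.analyticAt _).comp hKa
      have hkd : HasFDerivAt k (ℓ.comp (fderiv ℝ K t')) t' :=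
        ℓ.hasFDerivAt.comp t' hKa.differentiableAt.hasFDerivAt
      have hkv : fderiv ℝ k t' v ≠ 0 := by
        rw [hkd.fderiv]; simpa using hℓ
      obtain ⟨h1, h2, h3, h4, h5, h6⟩ := hball t' ht'
      have hπψ : π (ψ t' - p) = t' := by
        have := hψΦ t' ht'
        simp only [hΦ, Prod.mk.injEq] at this
        exact this.2
      set g' : E → (Fin (r + 1) → ℝ) := fun x => Fin.cons (k (π (x - p))) (g x) with hg'
      have hg'0 : ∀ x, g' x 0 = k (π (x - p)) := fun x => rfl
      have hg's : ∀ x (i : Fin r), g' x i.succ = g x i := fun x i => rfl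
      have hka' : AnalyticAt ℝ (fun x => k (π (x - p))) (ψ t') := by
        have hA : AnalyticAt ℝ (fun x => π (x - p)) (ψ t') :=
          (π.analyticAt _).comp (analyticAt_id.sub analyticAt_const)
        have hB : AnalyticAt ℝ k (π (ψ t' - p)) := by rw [hπψ]; exact hka
        exact AnalyticAt.comp (g := k) (f := fun x => π (x - p)) hB hA
      have hg'a : AnalyticAt ℝ g' (ψ t') := by
        refine AnalyticAt.pi ?_
        intro i
        refine Fin.cases ?_ (fun j => ?_) i
        · exact hka'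
        · have : AnalyticAt ℝ (fun x => g x j) (ψ t') :=
            ((ContinuousLinearMap.proj (R := ℝ) (φ := fun _ : Fin r => ℝ) j).analyticAt _).comp h3
          exact this
      have hg'd : ∀ w, fderiv ℝ g' (ψ t') w =
          Fin.cons (fderiv ℝ k t' (π w)) (fderiv ℝ g (ψ t') w) := by
        intro w
        have e1 : HasFDerivAt (fun x => k (π (x - p))) ((fderiv ℝ k t').comp π) (ψ t') := by
          have : HasFDerivAt k (fderiv ℝ k t') (π (ψ t' - p)) := by
            rw [hπψ]; exact hka.differentiableAt.hasFDerivAt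
          exact this.comp (ψ t') (hπd _).hasFDerivAt
        have e2 : HasFDerivAt g (fderiv ℝ g (ψ t')) (ψ t') := h3.differentiableAt.hasFDerivAt
        have e3 : HasFDerivAt g' (fderiv ℝ g' (ψ t')) (ψ t') := hg'a.differentiableAt.hasFDerivAt
        rw [hasFDerivAt_pi'] at e2 e3
        funext i
        refine Fin.cases ?_ (fun j => ?_) i
        · have := (e3 0).unique e1
          have := congrArg (fun A => A w) this
          simpa using this
        · have := (e3 j.succ).unique (e2 j)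
          have := congrArg (fun A => A w) this
          simpa using this
      refine ⟨ψ t', h4, hHt', g', hg'a, ?_, ?_⟩
      · have hcont : Tendsto (fun x => π (x - p)) (𝓝 (ψ t')) (𝓝 t') := by
          have := (hπd (ψ t')).hasFDerivAt.continuousAt.tendsto
          rwa [hπψ] at this
        filter_upwards [h5, h6, hcont.eventually (isOpen_ball.mem_nhds ht')] with x hx5 hx6 hxb hx
        have hgx : g x = 0 := hx5 hx
        have hψx : ψ (π (x - p)) = x := by
          have : Φ x = (0, π (x - p)) := by simp [hΦ, hgx]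
          rw [this] at hx6
          exact hx6
        have hHx : H (π (x - p)) = 0 := by
          change h (ψ (π (x - p))) = 0
          rw [hψx]; exact hx
        have hKx : K (π (x - p)) = 0 := hKz _ hxb hHx
        funext i
        refine Fin.cases ?_ (fun j => ?_) i
        · rw [hg'0]
          change ℓ (K (π (x - p))) = 0
          rw [hKx, map_zero]
        · rw [hg's, hgx]; rfl
      · intro c
        set w1 := fderiv ℝ Ψ (0, t') (Fin.tail c, 0) with hw1
        set w0 := fderiv ℝ Ψ (0, t') (0, v) with hw0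
        obtain ⟨a1, b1⟩ := hder t' ht' (Fin.tail c) 0
        obtain ⟨a0, b0⟩ := hder t' ht' 0 v
        refine ⟨w1 + (c 0 / fderiv ℝ k t' v) • w0, ?_⟩
        rw [hg'd]
        funext i
        refine Fin.cases ?_ (fun j => ?_) i
        · rw [Fin.cons_zero, map_add, map_smul, b1, b0, zero_add, map_smul, smul_eq_mul]
          field_simp
        · rw [Fin.cons_succ, map_add, map_smul, a1, a0]
          simp [Fin.tail]
  have hmem0 : (0 : T) ∈ ball (0 : T) ρ := mem_ball_self hρ
  have hD : HasFDerivAt ψ T.subtypeL 0 := by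
    have h1 := (hball 0 hmem0).1
    have h1d : HasFDerivAt Ψ (fderiv ℝ Ψ (0, (0 : T))) (0, 0) := h1.differentiableAt.hasFDerivAt
    have h2 : HasFDerivAt (fun t : T => ((0 : Fin r → ℝ), t))
        (ContinuousLinearMap.inr ℝ (Fin r → ℝ) T) 0 :=
      (ContinuousLinearMap.inr ℝ (Fin r → ℝ) T).hasFDerivAt
    have h3 := h1d.comp (0 : T) h2
    have hfin : T.subtypeL = (fderiv ℝ Ψ (0, (0 : T))).comp (ContinuousLinearMap.inr ℝ (Fin r → ℝ) T) := by
      apply ContinuousLinearMap.ext
      intro u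
      obtain ⟨a, b⟩ := hder 0 hmem0 0 u
      rw [hψ0, ← hL] at a
      have hm : fderiv ℝ Ψ (0, (0 : T)) (0, u) ∈ T := (hTL _).2 a
      have h4 := hπ ⟨_, hm⟩
      rw [b] at h4
      have h5 := congrArg Subtype.val h4
      simpa using h5
    rw [hfin]
    exact h3
  have hlit : ∀ ε > 0, ∃ r > 0, ∀ u : T, ‖u‖ ≤ r → H u = 0 ∧ ‖ψ u - p - (u : E)‖ ≤ ε * ‖u‖ := by
    intro ε hε
    have h1 := (hD.isLittleO.def hε).and key
    obtain ⟨r, hr, h2⟩ := Metric.eventually_nhds_iff_ball.1 h1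
    refine ⟨r / 2, by positivity, fun u hu => ?_⟩
    have hu' : u ∈ ball (0 : T) r := by
      rw [mem_ball_zero_iff]; linarith
    obtain ⟨h3, h4⟩ := h2 u hu'
    refine ⟨h4, ?_⟩
    rw [hψ0] at h3
    simpa using h3
  refine ⟨p, hpV, T, hp0, ?_, ?_⟩
  · intro ε hε
    obtain ⟨r, hr, h1⟩ := hlit ε hε
    refine ⟨r, hr, fun u hu hur => ?_⟩
    obtain ⟨h2, h3⟩ := h1 ⟨u, hu⟩ (by simpa using hur)
    refine ⟨ψ ⟨u, hu⟩, h2, ?_⟩
    have : ψ ⟨u, hu⟩ - (p + u) = ψ ⟨u, hu⟩ - p - u := by abel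
    rw [this]
    simpa using h3
  · intro ε hε
    obtain ⟨r, hr, h1⟩ := hlit (ε / (‖π‖ + 1)) (by positivity)
    have hcont : Tendsto (fun x => π (x - p)) (𝓝 p) (𝓝 0) := by
      have := (hπd p).hasFDerivAt.continuousAt.tendsto
      simpa using this
    have hev : ∀ᶠ x in 𝓝 p, (h x = 0 → g x = 0) ∧ Ψ (Φ x) = x ∧ ‖π (x - p)‖ ≤ r := by
      refine hgz.and (hl.and ?_)
      have := hcont.norm
      rw [norm_zero] at this
      exact (this.eventually (gt_mem_nhds hr)).mono fun _ h => le_of_lt h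
    obtain ⟨r', hr', h2⟩ := Metric.eventually_nhds_iff_ball.1 hev
    refine ⟨r' / 2, by positivity, fun x hx hxr => ?_⟩
    obtain ⟨h3, h4, h5⟩ := h2 x (by rw [mem_ball_iff_norm]; linarith)
    have hgx : g x = 0 := h3 hx
    have hψx : ψ (π (x - p)) = x := by
      have : Φ x = (0, π (x - p)) := by simp [hΦ, hgx]
      rw [this] at h4
      exact h4
    obtain ⟨-, h6⟩ := h1 _ h5
    rw [hψx] at h6
    refine ⟨(π (x - p) : T), (π (x - p)).2, h6.trans ?_⟩
    have h7 : ‖π (x - p)‖ ≤ ‖π‖ * ‖x - p‖ := π.le_opNorm _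
    have h8 : (0 : ℝ) < ‖π‖ + 1 := by positivity
    calc ε / (‖π‖ + 1) * ‖π (x - p)‖ ≤ ε / (‖π‖ + 1) * ((‖π‖ + 1) * ‖x - p‖) := by
          refine mul_le_mul_of_nonneg_left (h7.trans ?_) (by positivity)
          have := norm_nonneg (x - p)
          nlinarith
      _ = ε * ‖x - p‖ := by field_simp

end Pool.Agent.N317.FX
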