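import Mathlib

/-! Nonexpansive retraction onto the fixed point set, and tracking along lines. -/

open Set Filter Topology Metric

namespace Pool.Agent.N317.FX

set_option linter.unusedSectionVars false

variable {X : Type*} [NormedAddCommGroup X] [NormedSpace ℝ X] [FiniteDimensional ℝ X]

/-- the averaged map -/
noncomputable def avg (f : X → X) (x : X) : X := (1 / 2 : ℝ) • (x + f x)

lemma avg_fix {f : X → X} {p : X} (hp : f p = p) : avg f p = p := by
  rw [avg, hp, ← two_smul ℝ p, smul_smul]; norm_num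

lemma avg_dist {f : X → X} (hf : ∀ x y, ‖f x - f y‖ ≤ ‖x - y‖) (x y : X) :
    ‖avg f x - avg f y‖ ≤ ‖x - y‖ := by
  have : avg f x - avg f y = (1 / 2 : ℝ) • ((x - y) + (f x - f y)) := by
    simp only [avg]; module
  rw [this, norm_smul]
  have h1 := norm_add_le (x - y) (f x - f y)
  have h2 := hf x y
  rw [Real.norm_of_nonneg (by norm_num)]
  linarith

lemma avg_iter_dist {f : X → X} (hf : ∀ x y, ‖f x - f y‖ ≤ ‖x - y‖) (n : ℕ) (x y : X) :
    ‖(avg f)^[n] x - (avg f)^[n] y‖ ≤ ‖x - y‖ := by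
  induction n with
  | zero => simp
  | succ n ih =>
    rw [Function.iterate_succ_apply', Function.iterate_succ_apply']
    exact (avg_dist hf _ _).trans ih

lemma avg_iter_fix {f : X → X} {p : X} (hp : f p = p) (n : ℕ) : (avg f)^[n] p = p :=
  Function.iterate_fixed (avg_fix hp) n

lemma avg_sub {f : X → X} (x : X) : avg f x - x = (1 / 2 : ℝ) • (f x - x) := by
  simp only [avg]; module

lemma f_sub_avg {f : X → X} (x : X) : f x - x = (2 : ℝ) • (avg f x - x) := by
  simp only [avg]; module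

/-- Goebel-Kirk -/
lemma goebel {f : X → X} (hf : ∀ x y, ‖f x - f y‖ ≤ ‖x - y‖) {z : X} {δ : ℝ}
    (hδ : ∀ i, ‖f ((avg f)^[i] z) - (avg f)^[i] z‖ = δ) (n : ℕ) :
    ∀ i, (1 + n / 2) * δ ≤ ‖f ((avg f)^[i + n] z) - (avg f)^[i] z‖ := by
  have hstep : ∀ i m, ‖(avg f)^[i + m] z - (avg f)^[i] z‖ ≤ m * (δ / 2) := by
    intro i m
    induction m with
    | zero => simp
    | succ m ih =>
      have h1 : ‖(avg f)^[i + (m + 1)] z - (avg f)^[i + m] z‖ = δ / 2 := by
        rw [← add_assoc, Function.iterate_succ_apply', avg_sub, norm_smul, hδ,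
          Real.norm_of_nonneg (by norm_num)]
        ring
      calc ‖(avg f)^[i + (m + 1)] z - (avg f)^[i] z‖
          ≤ ‖(avg f)^[i + (m + 1)] z - (avg f)^[i + m] z‖ + ‖(avg f)^[i + m] z - (avg f)^[i] z‖ :=
            norm_sub_le_norm_sub_add_norm_sub _ _ _
        _ ≤ δ / 2 + m * (δ / 2) := by rw [h1]; gcongr
        _ = _ := by push_cast; ring
  induction n with
  | zero => intro i; simp [hδ]
  | succ n ih =>
    intro i
    have h1 := ih (i + 1)
    have h2 : (avg f)^[i + 1] z = (1 / 2 : ℝ) • ((avg f)^[i] z + f ((avg f)^[i] z)) := by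
      rw [Function.iterate_succ_apply']; rfl
    have h3 : f ((avg f)^[i + 1 + n] z) - (avg f)^[i + 1] z =
        (1 / 2 : ℝ) • ((f ((avg f)^[i + 1 + n] z) - (avg f)^[i] z) +
          (f ((avg f)^[i + 1 + n] z) - f ((avg f)^[i] z))) := by
      rw [h2]; module
    have h4 := norm_add_le (f ((avg f)^[i + 1 + n] z) - (avg f)^[i] z)
          (f ((avg f)^[i + 1 + n] z) - f ((avg f)^[i] z))
    have h5 : ‖f ((avg f)^[i + 1 + n] z) - f ((avg f)^[i] z)‖ ≤ (n + 1 : ℕ) * (δ / 2) := by
      refine (hf _ _).trans ?_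
      have := hstep i (n + 1)
      rwa [show i + (n + 1) = i + 1 + n by ring] at this
    rw [h3, norm_smul, Real.norm_of_nonneg (by norm_num)] at h1
    rw [show i + (n + 1) = i + 1 + n by ring]
    push_cast at h5 ⊢
    linarith

lemma exists_lim {f : X → X} (hf : ∀ x y, ‖f x - f y‖ ≤ ‖x - y‖) {p : X} (hp : f p = p) (x : X) :
    ∃ z, f z = z ∧ Tendsto (fun n => (avg f)^[n] x) atTop (𝓝 z) := by
  have hcf : Continuous f := by
    have : LipschitzWith 1 f := LipschitzWith.of_dist_le_mul fun x y => by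
      simpa [dist_eq_norm] using hf x y
    exact this.continuous
  have hcg : Continuous (avg f) := by
    unfold avg; fun_prop
  have hb : ∀ n, ‖(avg f)^[n] x - p‖ ≤ ‖x - p‖ := by
    intro n
    have := avg_iter_dist hf n x p
    rwa [avg_iter_fix hp] at this
  have hanti : Antitone fun n => ‖f ((avg f)^[n] x) - (avg f)^[n] x‖ := by
    apply antitone_nat_of_succ_le
    intro n
    have h1 : ‖f ((avg f)^[n + 1] x) - (avg f)^[n + 1] x‖ =
        2 * ‖(avg f)^[n + 1] (avg f x) - (avg f)^[n + 1] x‖ := by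
      rw [f_sub_avg, norm_smul, ← Function.iterate_succ_apply' (avg f) (n + 1) x,
        Function.iterate_succ_apply]
      norm_num
    have h2 : ‖f ((avg f)^[n] x) - (avg f)^[n] x‖ =
        2 * ‖(avg f)^[n] (avg f x) - (avg f)^[n] x‖ := by
      rw [f_sub_avg, norm_smul, ← Function.iterate_succ_apply' (avg f) n x,
        Function.iterate_succ_apply]
      norm_num
    rw [h1, h2, Function.iterate_succ_apply', Function.iterate_succ_apply']
    have := avg_dist hf ((avg f)^[n] (avg f x)) ((avg f)^[n] x)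
    linarith
  obtain ⟨δ, hδ⟩ : ∃ δ, Tendsto (fun n => ‖f ((avg f)^[n] x) - (avg f)^[n] x‖) atTop (𝓝 δ) :=
    ⟨_, tendsto_atTop_ciInf hanti ⟨0, by rintro _ ⟨n, rfl⟩; exact norm_nonneg _⟩⟩
  obtain ⟨z, -, φ, hφ, hz⟩ := (isCompact_closedBall p ‖x - p‖).tendsto_subseq
    (x := fun n => (avg f)^[n] x) (fun n => by rw [mem_closedBall_iff_norm]; exact hb n)
  have hzi : ∀ i, Tendsto (fun k => (avg f)^[φ k + i] x) atTop (𝓝 ((avg f)^[i] z)) := by
    intro i
    have h1 : Continuous ((avg f)^[i]) := hcg.iterate i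
    have h2 := (h1.tendsto z).comp hz
    refine h2.congr fun k => ?_
    simp only [Function.comp]
    rw [← Function.iterate_add_apply, add_comm]
  have hconst : ∀ i, ‖f ((avg f)^[i] z) - (avg f)^[i] z‖ = δ := by
    intro i
    have h1 : Tendsto (fun k => ‖f ((avg f)^[φ k + i] x) - (avg f)^[φ k + i] x‖) atTop
        (𝓝 ‖f ((avg f)^[i] z) - (avg f)^[i] z‖) :=
      (((hcf.tendsto _).comp (hzi i)).sub (hzi i)).norm
    have h2 : Tendsto (fun k => ‖f ((avg f)^[φ k + i] x) - (avg f)^[φ k + i] x‖) atTop (𝓝 δ) := by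
      refine hδ.comp ?_
      exact tendsto_atTop_mono (fun k => Nat.le_add_right _ _) hφ.tendsto_atTop
    exact tendsto_nhds_unique h1 h2
  have hδ0 : δ = 0 := by
    by_contra hne
    have hpos : 0 < δ := lt_of_le_of_ne (by rw [← hconst 0]; exact norm_nonneg _) (Ne.symm hne)
    have hzb : ∀ i, ‖(avg f)^[i] z - p‖ ≤ ‖z - p‖ := by
      intro n
      have := avg_iter_dist hf n z p
      rwa [avg_iter_fix hp] at this
    obtain ⟨n, hn⟩ := exists_nat_gt (4 * ‖z - p‖ / δ)
    have h1 := goebel hf hconst n 0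
    have h2 : ‖f ((avg f)^[0 + n] z) - (avg f)^[0] z‖ ≤ 2 * ‖z - p‖ := by
      calc ‖f ((avg f)^[0 + n] z) - (avg f)^[0] z‖ ≤ ‖f ((avg f)^[0 + n] z) - p‖ + ‖p - (avg f)^[0] z‖ :=
            norm_sub_le_norm_sub_add_norm_sub _ _ _
        _ ≤ ‖z - p‖ + ‖z - p‖ := by
            gcongr
            · calc ‖f ((avg f)^[0 + n] z) - p‖ = ‖f ((avg f)^[0 + n] z) - f p‖ := by rw [hp]
                _ ≤ ‖(avg f)^[0 + n] z - p‖ := hf _ _
                _ ≤ _ := hzb _
            · rw [norm_sub_rev]; exact hzb 0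
        _ = _ := by ring
    rw [div_lt_iff₀ hpos] at hn
    nlinarith
  have hfz : f z = z := by
    have := hconst 0
    rw [hδ0] at this
    exact sub_eq_zero.1 (norm_eq_zero.1 this)
  refine ⟨z, hfz, ?_⟩
  rw [tendsto_iff_norm_sub_tendsto_zero]
  have hanti2 : Antitone fun n => ‖(avg f)^[n] x - z‖ := by
    apply antitone_nat_of_succ_le
    intro n
    have := avg_dist hf ((avg f)^[n] x) z
    rw [avg_fix hfz] at this
    rwa [Function.iterate_succ_apply']
  obtain ⟨l, hl⟩ : ∃ l, Tendsto (fun n => ‖(avg f)^[n] x - z‖) atTop (𝓝 l) :=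
    ⟨_, tendsto_atTop_ciInf hanti2 ⟨0, by rintro _ ⟨n, rfl⟩; exact norm_nonneg _⟩⟩
  have h1 : Tendsto (fun k => ‖(avg f)^[φ k] x - z‖) atTop (𝓝 l) := hl.comp hφ.tendsto_atTop
  have h2 : Tendsto (fun k => ‖(avg f)^[φ k] x - z‖) atTop (𝓝 0) := by
    have := (hz.sub_const z).norm
    simpa using this
  rw [← tendsto_nhds_unique h1 h2]
  exact hl

/-- abstract retraction structure -/
structure RS (F : Set X) (ρ : X → X) : Prop where
  mem : ∀ x, ρ x ∈ F
  fix : ∀ x ∈ F, ρ x = x
  lip : ∀ x y, ‖ρ x - ρ y‖ ≤ ‖x - y‖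
  track : ∀ a ∈ F, ∀ b ∈ F, ∀ s t : ℝ,
    ‖ρ (a + t • (b - a)) - ρ (a + s • (b - a))‖ = |t - s| * ‖b - a‖

theorem exists_RS {f : X → X} (hf : ∀ x y, ‖f x - f y‖ ≤ ‖x - y‖) (ha : ∀ x, AnalyticAt ℝ f x)
    {p : X} (hp : f p = p) : ∃ ρ : X → X, RS {x | f x = x} ρ := by
  choose ρ hρ1 hρ2 using exists_lim hf hp
  have hlip : ∀ x y, ‖ρ x - ρ y‖ ≤ ‖x - y‖ := by
    intro x y
    refine le_of_tendsto ((hρ2 x).sub (hρ2 y)).norm ?_
    exact Eventually.of_forall fun n => avg_iter_dist hf n x y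
  have hfix : ∀ x, f x = x → ρ x = x := by
    intro x hx
    refine tendsto_nhds_unique (hρ2 x) ?_
    simp only [avg_iter_fix hx]
    exact tendsto_const_nhds
  refine ⟨ρ, hρ1, hfix, hlip, ?_⟩
  intro a ha' b hb s t
  simp only [mem_ofPred_eq] at ha' hb
  have hana : ∀ n x, AnalyticAt ℝ ((avg f)^[n]) x := by
    intro n
    induction n with
    | zero => intro x; exact analyticAt_id
    | succ n ih =>
      intro x
      rw [Function.iterate_succ']
      have h1 : AnalyticAt ℝ (avg f) ((avg f)^[n] x) := by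
        have : AnalyticAt ℝ (fun x => (1 / 2 : ℝ) • (x + f x)) ((avg f)^[n] x) :=
          analyticAt_const.smul (analyticAt_id.add (ha _))
        exact this
      exact h1.comp (ih x)
  obtain ⟨φ, hφ1, hφ2⟩ := exists_dual_vector'' ℝ (b - a)
  have hφle : ∀ x, φ x ≤ ‖x‖ := by
    intro x
    calc φ x ≤ ‖φ x‖ := Real.le_norm_self _
      _ ≤ ‖φ‖ * ‖x‖ := φ.le_opNorm x
      _ ≤ 1 * ‖x‖ := by gcongr
      _ = ‖x‖ := one_mul _
  have hφba : φ (b - a) = ‖b - a‖ := by simpa using hφ2
  have key : ∀ n (t : ℝ), φ ((avg f)^[n] (a + t • (b - a))) = φ a + t * ‖b - a‖ := by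
    intro n
    have h1 : AnalyticOnNhd ℝ (fun t : ℝ => φ ((avg f)^[n] (a + t • (b - a)))) univ := by
      intro t _
      have h2 : AnalyticAt ℝ (fun t : ℝ => a + t • (b - a)) t :=
        analyticAt_const.add (analyticAt_id.smul analyticAt_const)
      have h3 : AnalyticAt ℝ (fun t : ℝ => (avg f)^[n] (a + t • (b - a))) t :=
        AnalyticAt.comp (g := (avg f)^[n]) (f := fun t : ℝ => a + t • (b - a)) (hana n _) h2
      exact AnalyticAt.comp (g := φ) (f := fun t : ℝ => (avg f)^[n] (a + t • (b - a)))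
        (φ.analyticAt _) h3
    have h2 : AnalyticOnNhd ℝ (fun t : ℝ => φ a + t * ‖b - a‖) univ := by
      intro t _
      exact analyticAt_const.add (analyticAt_id.mul analyticAt_const)
    have h3 : (fun t : ℝ => φ ((avg f)^[n] (a + t • (b - a)))) =ᶠ[𝓝 (1 / 2 : ℝ)]
        (fun t : ℝ => φ a + t * ‖b - a‖) := by
      have h4 : Ioo (0 : ℝ) 1 ∈ 𝓝 (1 / 2 : ℝ) := Ioo_mem_nhds (by norm_num) (by norm_num)
      filter_upwards [h4] with t ht
      have h5 : ‖(avg f)^[n] (a + t • (b - a)) - a‖ ≤ t * ‖b - a‖ := by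
        have := avg_iter_dist hf n (a + t • (b - a)) a
        rw [avg_iter_fix ha'] at this
        refine this.trans (le_of_eq ?_)
        rw [add_sub_cancel_left, norm_smul, Real.norm_of_nonneg ht.1.le]
      have h6 : ‖b - (avg f)^[n] (a + t • (b - a))‖ ≤ (1 - t) * ‖b - a‖ := by
        have := avg_iter_dist hf n b (a + t • (b - a))
        rw [avg_iter_fix hb] at this
        refine this.trans (le_of_eq ?_)
        rw [show b - (a + t • (b - a)) = (1 - t) • (b - a) by module, norm_smul,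
          Real.norm_of_nonneg (by linarith [ht.2])]
      have h7 := (hφle _).trans h5
      have h8 := (hφle _).trans h6
      rw [map_sub] at h7 h8
      rw [map_sub] at hφba
      rw [map_sub] at *
      linarith
    have h4 := h1.eq_of_eventuallyEq h2 h3
    intro t
    exact congrFun h4 t
  have keyρ : ∀ t : ℝ, φ (ρ (a + t • (b - a))) = φ a + t * ‖b - a‖ := by
    intro t
    refine tendsto_nhds_unique ((φ.continuous.tendsto _).comp (hρ2 (a + t • (b - a)))) ?_
    have : (φ ∘ fun n => (avg f)^[n] (a + t • (b - a))) = fun _ => φ a + t * ‖b - a‖ := by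
      funext n; exact key n t
    rw [this]; exact tendsto_const_nhds
  apply le_antisymm
  · refine (hlip _ _).trans (le_of_eq ?_)
    rw [show a + t • (b - a) - (a + s • (b - a)) = (t - s) • (b - a) by module, norm_smul,
      Real.norm_eq_abs]
  · have hlow : ∀ s t : ℝ, (t - s) * ‖b - a‖ ≤ ‖ρ (a + t • (b - a)) - ρ (a + s • (b - a))‖ := by
      intro s t
      have := hφle (ρ (a + t • (b - a)) - ρ (a + s • (b - a)))
      rw [map_sub, keyρ, keyρ] at this
      linarith
    rcases le_total s t with hst | hst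
    · rw [abs_of_nonneg (sub_nonneg.2 hst)]; exact hlow s t
    · rw [abs_of_nonpos (sub_nonpos.2 hst), norm_sub_rev (ρ (a + t • (b - a)))]
      have := hlow t s
      linarith

end Pool.Agent.N317.FX
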