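import Mathlib
import Pool.Agent.Helper608.Brouwer

/-! Two topological lemmas. -/

open Set Filter Topology Metric

namespace Pool.Agent.N317.FX

set_option linter.unusedSectionVars false

/-- a homotopy with a priori bound -/
theorem homotopy_solve {T : Type*} [NormedAddCommGroup T] [NormedSpace ℝ T] [FiniteDimensional ℝ T]
    (H : ℝ → T → T) (hc : ContinuousOn (fun z : ℝ × T => H z.1 z.2) (Icc (0 : ℝ) 1 ×ˢ univ))
    (h1 : ∀ u, H 1 u = u) (w : T) (R' : ℝ)
    (hap : ∀ τ ∈ Icc (0 : ℝ) 1, ∀ u, H τ u = w → ‖u‖ ≤ R') : ∃ u, H 0 u = w := by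
  set lam : T → ℝ := fun u => max 0 (min 1 (‖u‖ - R')) with hlam
  have hlc : Continuous lam := by fun_prop
  have hlm : ∀ u, lam u ∈ Icc (0 : ℝ) 1 := fun u =>
    ⟨le_max_left _ _, max_le zero_le_one (min_le_left _ _)⟩
  set G : T → T := fun u => u - H (lam u) u + w with hG
  have hGc : Continuous G := by
    have h2 : Continuous fun u => H (lam u) u := by
      have h3 : Continuous fun u : T => ((lam u, u) : ℝ × T) := by fun_prop
      exact hc.comp_continuous h3 fun u => ⟨hlm u, mem_univ _⟩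
    exact (continuous_id.sub h2).add continuous_const
  have hGw : ∀ u, R' + 1 ≤ ‖u‖ → G u = w := by
    intro u hu
    have : lam u = 1 := by
      simp only [hlam]
      rw [min_eq_left (by linarith)]
      exact max_eq_right zero_le_one
    simp [hG, this, h1]
  obtain ⟨M, hM⟩ := (isCompact_closedBall (0 : T) (R' + 1)).exists_bound_of_continuousOn hGc.continuousOn
  obtain ⟨u, hu⟩ := Pool.Agent.Helper608.Brouwer.brouwer G hGc (max M ‖w‖) (by
    intro x
    rcases le_or_gt ‖x‖ (R' + 1) with h | h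
    · exact (hM x (by simpa using h)).trans (le_max_left _ _)
    · rw [hGw x h.le]; exact le_max_right _ _)
  have h2 : H (lam u) u = w := by
    have : u - H (lam u) u + w = u := hu
    have h3 : u - (u - H (lam u) u + w) = 0 := by rw [this, sub_self]
    have h5 : H (lam u) u - w = 0 := by rw [← h3]; abel
    exact sub_eq_zero.1 h5
  have h3 := hap _ (hlm u) u h2
  have h4 : lam u = 0 := by
    simp only [hlam]
    apply max_eq_left
    exact (min_le_right _ _).trans (by linarith)
  rw [h4] at h2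
  exact ⟨u, h2⟩

/-- a nonexpansive surjection of a compact metric space is an isometry -/
theorem isometry_of_surj {K : Type*} [MetricSpace K] [CompactSpace K] {σ : K → K}
    (hσ : ∀ x y, dist (σ x) (σ y) ≤ dist x y) (hs : Function.Surjective σ) : Isometry σ := by
  obtain ⟨τ, hτ⟩ := hs.hasRightInverse
  have hτ1 : ∀ x y, dist x y ≤ dist (τ x) (τ y) := by
    intro x y
    have := hσ (τ x) (τ y)
    rwa [hτ, hτ] at this
  have hτn : ∀ n x y, dist x y ≤ dist (τ^[n] x) (τ^[n] y) := by
    intro n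
    induction n with
    | zero => intro x y; simp
    | succ n ih =>
      intro x y
      rw [Function.iterate_succ_apply', Function.iterate_succ_apply']
      exact (ih x y).trans (hτ1 _ _)
  have hσn : ∀ n x y, dist (σ^[n] x) (σ^[n] y) ≤ dist x y := by
    intro n
    induction n with
    | zero => intro x y; simp
    | succ n ih =>
      intro x y
      rw [Function.iterate_succ_apply', Function.iterate_succ_apply']
      exact (hσ _ _).trans (ih x y)
  have hcancel : ∀ m x, σ^[m] (τ^[m] x) = x := by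
    intro m
    induction m with
    | zero => intro x; rfl
    | succ m ih =>
      intro x
      rw [Function.iterate_succ_apply, Function.iterate_succ_apply', hτ, ih]
  refine Isometry.of_dist_eq fun x y => le_antisymm (hσ x y) ?_
  refine le_of_forall_pos_le_add fun ε hε => ?_
  obtain ⟨z, -, φ, hφ, hz⟩ := (isCompact_univ (X := K × K)).tendsto_subseq
    (x := fun n => (τ^[n] x, τ^[n] y)) (fun _ => mem_univ _)
  have hcau := hz.cauchySeq
  rw [Metric.cauchySeq_iff] at hcau
  obtain ⟨N, hN⟩ := hcau (ε / 2) (by positivity)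
  have h1 := hN N le_rfl (N + 1) (by omega)
  simp only [Function.comp] at h1
  have hlt : φ N < φ (N + 1) := hφ (Nat.lt_succ_self N)
  obtain ⟨d, hd⟩ : ∃ d, φ (N + 1) = φ N + 1 + d := ⟨φ (N + 1) - φ N - 1, by omega⟩
  rw [Prod.dist_eq, max_lt_iff] at h1
  have hgen : ∀ x : K, dist (τ^[φ N] x) (τ^[φ (N + 1)] x) < ε / 2 → dist (σ x) (τ^[d] x) ≤ ε / 2 := by
    intro x hx
    have h2 := hσn (φ N + 1) (τ^[φ N] x) (τ^[φ (N + 1)] x)
    have h3 : σ^[φ N + 1] (τ^[φ N] x) = σ x := by
      rw [Function.iterate_succ_apply', hcancel]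
    have h4 : σ^[φ N + 1] (τ^[φ (N + 1)] x) = τ^[d] x := by
      rw [hd, Function.iterate_add_apply τ (φ N + 1) d, hcancel]
    rw [h3, h4] at h2
    exact h2.trans hx.le
  have h2 := hgen x h1.1
  have h3 := hgen y h1.2
  calc dist x y ≤ dist (τ^[d] x) (τ^[d] y) := hτn d x y
    _ ≤ dist (τ^[d] x) (σ x) + dist (σ x) (σ y) + dist (σ y) (τ^[d] y) := dist_triangle4 _ _ _ _
    _ ≤ ε / 2 + dist (σ x) (σ y) + ε / 2 := by
        gcongr
        rw [dist_comm]; exact h2
    _ = dist (σ x) (σ y) + ε := by ring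

/-- the same for a self-map of a closed subset of a proper space preserving the distance to a
point `q` -/
theorem isometry_of_surj_on {Y : Type*} [MetricSpace Y] [ProperSpace Y] {F : Set Y}
    (hF : IsClosed F) {σ : Y → Y} (hσ : ∀ x ∈ F, ∀ y ∈ F, dist (σ x) (σ y) ≤ dist x y)
    (hm : MapsTo σ F F) (hs : SurjOn σ F F) {q : Y} (hq : ∀ x ∈ F, dist (σ x) q = dist x q) :
    ∀ x ∈ F, ∀ y ∈ F, dist (σ x) (σ y) = dist x y := by
  intro x hx y hy
  set R := max (dist x q) (dist y q) with hR
  set K : Set Y := F ∩ closedBall q R with hK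
  have hKc : IsCompact K := (isCompact_closedBall q R).inter_left hF
  have : CompactSpace K := isCompact_iff_compactSpace.1 hKc
  have hmK : ∀ z : K, σ z ∈ K := by
    rintro ⟨z, hz1, hz2⟩
    refine ⟨hm hz1, ?_⟩
    rw [mem_closedBall] at hz2 ⊢
    rw [hq z hz1]; exact hz2
  let σ' : K → K := fun z => ⟨σ z, hmK z⟩
  have hiso : Isometry σ' := by
    refine isometry_of_surj (fun a b => hσ _ a.2.1 _ b.2.1) ?_
    rintro ⟨z, hz1, hz2⟩
    obtain ⟨w, hw, hwz⟩ := hs hz1
    refine ⟨⟨w, hw, ?_⟩, Subtype.ext hwz⟩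
    rw [mem_closedBall] at hz2 ⊢
    rw [← hq w hw, hwz]; exact hz2
  have hxK : x ∈ K := ⟨hx, by rw [mem_closedBall]; exact le_max_left _ _⟩
  have hyK : y ∈ K := ⟨hy, by rw [mem_closedBall]; exact le_max_right _ _⟩
  exact hiso.dist_eq ⟨x, hxK⟩ ⟨y, hyK⟩

end Pool.Agent.N317.FX
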