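import Mathlib
import Pool.Agent.N317.FX.Reg
import Pool.Agent.N317.FX.Ret
import Pool.Agent.N317.FX.Top

/-! The retract is isometric to a linear subspace. -/

open Set Filter Topology Metric

namespace Pool.Agent.N317.FX

set_option linter.unusedSectionVars false

variable {X : Type*} [NormedAddCommGroup X] [NormedSpace ℝ X] [FiniteDimensional ℝ X]
  {F : Set X} {ρ : X → X} {T : Submodule ℝ X} {q : X}

/-- ultralimit -/
noncomputable def ulim (x : ℕ → X) : X := limUnder (hyperfilter ℕ : Filter ℕ) x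

lemma ulim_spec {x : ℕ → X} {R : ℝ} (h : ∀ n, ‖x n‖ ≤ R) :
    Tendsto x (hyperfilter ℕ : Filter ℕ) (𝓝 (ulim x)) := by
  have : ProperSpace X := FiniteDimensional.proper ℝ X
  have h1 := (isCompact_closedBall (0 : X) R).ultrafilter_le_nhds (Ultrafilter.map x (hyperfilter ℕ)) (by
    rw [le_principal_iff]
    simp only [Ultrafilter.coe_map, mem_map]
    exact Eventually.of_forall fun n => by
      simpa using h n)
  obtain ⟨z, -, hz⟩ := h1
  exact tendsto_nhds_limUnder ⟨z, hz⟩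

lemma hyper_le : (hyperfilter ℕ : Filter ℕ) ≤ atTop := by
  rw [← Nat.cofinite_eq_atTop]
  exact hyperfilter_le_cofinite

lemma RS.cont (h : RS F ρ) : Continuous ρ := by
  have : LipschitzWith 1 ρ := LipschitzWith.of_dist_le_mul fun x y => by
    simpa [dist_eq_norm] using h.lip x y
  exact this.continuous

lemma RS.closed (h : RS F ρ) : IsClosed F := by
  have : F = {x | ρ x = x} := by
    ext x
    exact ⟨fun hx => h.fix x hx, fun hx => by
      have : ρ x = x := hx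
      rw [← this]; exact h.mem x⟩
  rw [this]
  exact isClosed_eq h.cont continuous_id

lemma RS.norm (h : RS F ρ) {a x : X} (ha : a ∈ F) (hx : x ∈ F) {t : ℝ} (ht : 0 ≤ t) :
    ‖ρ (a + t • (x - a)) - a‖ = t * ‖x - a‖ := by
  have := h.track a ha x hx 0 t
  rw [zero_smul, add_zero, h.fix a ha, sub_zero, abs_of_nonneg ht] at this
  exact this

lemma RS.lipt (h : RS F ρ) (a x y : X) {t : ℝ} (ht : 0 ≤ t) :
    ‖ρ (a + t • (x - a)) - ρ (a + t • (y - a))‖ ≤ t * ‖x - y‖ := by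
  refine (h.lip _ _).trans (le_of_eq ?_)
  rw [show a + t • (x - a) - (a + t • (y - a)) = t • (x - y) by module, norm_smul,
    Real.norm_of_nonneg ht]

lemma psi_close (h : RS F ρ) (hr : Reg F T q) : ∀ ε > 0, ∃ r > 0, ∀ u ∈ T, ‖u‖ ≤ r →
    ‖ρ (q + u) - (q + u)‖ ≤ ε * ‖u‖ := by
  intro ε hε
  obtain ⟨r, hr0, h1⟩ := hr.lower (ε / 2) (by positivity)
  refine ⟨r, hr0, fun u hu hur => ?_⟩
  obtain ⟨x, hx, hxu⟩ := h1 u hu hur
  calc ‖ρ (q + u) - (q + u)‖ ≤ ‖ρ (q + u) - x‖ + ‖x - (q + u)‖ :=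
        norm_sub_le_norm_sub_add_norm_sub _ _ _
    _ = ‖ρ (q + u) - ρ x‖ + ‖x - (q + u)‖ := by rw [h.fix x hx]
    _ ≤ ‖x - (q + u)‖ + ‖x - (q + u)‖ := by
        gcongr
        rw [← norm_sub_rev (q + u) x]
        exact h.lip _ _
    _ ≤ ε / 2 * ‖u‖ + ε / 2 * ‖u‖ := by gcongr
    _ = ε * ‖u‖ := by ring

lemma psi_norm (h : RS F ρ) (hr : Reg F T q) {u : X} (hu : u ∈ T) : ‖ρ (q + u) - q‖ = ‖u‖ := by
  apply le_antisymm
  · have := h.lip (q + u) q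
    rw [h.fix q hr.mem] at this
    simpa using this
  · by_contra hcon
    push Not at hcon
    have hu0 : 0 < ‖u‖ := lt_of_le_of_lt (norm_nonneg _) hcon
    set c := ‖ρ (q + u) - q‖ with hc
    set ε := (‖u‖ - c) / (4 * ‖u‖) with hε
    have hεpos : 0 < ε := by
      rw [hε]; apply div_pos <;> linarith
    have hεu : ε * ‖u‖ = (‖u‖ - c) / 4 := by rw [hε]; field_simp
    obtain ⟨r, hr0, h1⟩ := psi_close h hr ε hεpos
    set δ := r / ‖u‖ with hδ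
    have hδ0 : 0 < δ := by positivity
    have hδu : ‖δ • u‖ = r := by
      rw [norm_smul, Real.norm_of_nonneg hδ0.le, hδ]; field_simp
    have h2 := h1 (δ • u) (T.smul_mem _ hu) hδu.le
    set x := ρ (q + δ • u) with hx
    have hxF : x ∈ F := h.mem _
    have h3 := h.norm hr.mem hxF (t := δ⁻¹) (by positivity)
    have h4 : ‖ρ (q + δ⁻¹ • (x - q)) - ρ (q + u)‖ ≤ ε * ‖u‖ := by
      refine (h.lip _ _).trans ?_
      have e : δ⁻¹ • (δ • u) = u := by rw [smul_smul, inv_mul_cancel₀ hδ0.ne', one_smul]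
      have e2 : q + δ⁻¹ • (x - q) - (q + u) = δ⁻¹ • (x - (q + δ • u)) := by
        rw [show x - (q + δ • u) = (x - q) - δ • u by abel, smul_sub δ⁻¹ (x - q) (δ • u), e]
        abel
      rw [e2, norm_smul, Real.norm_of_nonneg (by positivity)]
      calc δ⁻¹ * ‖x - (q + δ • u)‖ ≤ δ⁻¹ * (ε * ‖δ • u‖) := by gcongr
        _ = ε * ‖u‖ := by rw [norm_smul, Real.norm_of_nonneg hδ0.le]; field_simp
    have h5 : ‖δ • u‖ - ε * ‖δ • u‖ ≤ ‖x - q‖ := by
      have h6 : ‖δ • u‖ ≤ ‖x - q‖ + ‖x - (q + δ • u)‖ := by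
        have : δ • u = (x - q) - (x - (q + δ • u)) := by abel
        calc ‖δ • u‖ = ‖(x - q) - (x - (q + δ • u))‖ := by rw [← this]
          _ ≤ _ := norm_sub_le _ _
      linarith
    have h6 : ‖u‖ - ε * ‖u‖ ≤ δ⁻¹ * ‖x - q‖ := by
      have h7 : δ⁻¹ * (‖δ • u‖ - ε * ‖δ • u‖) ≤ δ⁻¹ * ‖x - q‖ := by gcongr
      have h8 : δ⁻¹ * (‖δ • u‖ - ε * ‖δ • u‖) = ‖u‖ - ε * ‖u‖ := by
        rw [norm_smul, Real.norm_of_nonneg hδ0.le]; field_simp
      linarith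
    have h7 : ‖ρ (q + δ⁻¹ • (x - q)) - q‖ ≤ ‖ρ (q + δ⁻¹ • (x - q)) - ρ (q + u)‖ + c :=
      norm_sub_le_norm_sub_add_norm_sub _ _ _
    linarith

lemma lim_mem (hr : Reg F T q) {z : ℕ → X} (hz : ∀ k, z k ∈ F) {C : ℝ}
    (hC : ∀ k, ‖z k - q‖ ≤ C * ((2 : ℝ) ^ k)⁻¹) {w : X}
    (hw : Tendsto (fun k => (2 : ℝ) ^ k • (z k - q)) (hyperfilter ℕ : Filter ℕ) (𝓝 w)) : w ∈ T := by
  have hcl : IsClosed (T : Set X) := Submodule.closed_of_finiteDimensional T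
  have hC0 : 0 ≤ C := by
    have := (norm_nonneg _).trans (hC 0)
    simpa using this
  rw [← SetLike.mem_coe, ← hcl.closure_eq, Metric.mem_closure_iff]
  intro ε hε
  obtain ⟨r, hr0, h1⟩ := hr.upper (ε / (2 * (C + 1))) (by positivity)
  have h2 : ∀ᶠ k in (hyperfilter ℕ : Filter ℕ), C * ((2 : ℝ) ^ k)⁻¹ ≤ r := by
    apply hyper_le
    have h3 : Tendsto (fun k : ℕ => C * ((2 : ℝ) ^ k)⁻¹) atTop (𝓝 (C * 0)) := by
      refine Tendsto.const_mul _ ?_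
      exact (tendsto_pow_atTop_atTop_of_one_lt (by norm_num)).inv_tendsto_atTop
    rw [mul_zero] at h3
    exact (h3.eventually (gt_mem_nhds hr0)).mono fun _ h => le_of_lt h
  have h3 : ∀ᶠ k in (hyperfilter ℕ : Filter ℕ), dist ((2 : ℝ) ^ k • (z k - q)) w < ε / 2 :=
    hw.eventually (Metric.ball_mem_nhds _ (by positivity))
  obtain ⟨k, hk1, hk2⟩ := (h2.and h3).exists
  obtain ⟨u, hu, huz⟩ := h1 (z k) (hz k) ((hC k).trans hk1)
  refine ⟨(2 : ℝ) ^ k • u, T.smul_mem _ hu, ?_⟩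
  have h4 : dist ((2 : ℝ) ^ k • (z k - q)) ((2 : ℝ) ^ k • u) ≤ ε / 2 := by
    rw [dist_eq_norm, ← smul_sub, norm_smul, Real.norm_of_nonneg (by positivity)]
    calc (2 : ℝ) ^ k * ‖z k - q - u‖ ≤ (2 : ℝ) ^ k * (ε / (2 * (C + 1)) * (C * ((2 : ℝ) ^ k)⁻¹)) := by
          gcongr
          exact huz.trans (by gcongr; exact hC k)
      _ = ε / 2 * (C / (C + 1)) := by field_simp
      _ ≤ ε / 2 * 1 := by
          gcongr
          rw [div_le_one (by positivity)]; linarith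
      _ = ε / 2 := mul_one _
  calc dist w ((2 : ℝ) ^ k • u) ≤ dist w ((2 : ℝ) ^ k • (z k - q)) +
        dist ((2 : ℝ) ^ k • (z k - q)) ((2 : ℝ) ^ k • u) := dist_triangle _ _ _
    _ < ε / 2 + ε / 2 := by
        rw [dist_comm w]
        exact add_lt_add_of_lt_of_le hk2 h4
    _ = ε := by ring

theorem exists_theta (h : RS F ρ) (hr : Reg F T q) : ∃ Θ : X → T,
    (∀ x y, ‖Θ x - Θ y‖ ≤ ‖x - y‖) ∧ (∀ x ∈ F, ‖Θ x‖ = ‖x - q‖) ∧
    (∀ ε > 0, ∃ r > 0, ∀ w : T, ‖w‖ ≤ r → ‖Θ (ρ (q + w)) - w‖ ≤ ε * ‖w‖) := by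
  set θ : ℕ → X → X := fun k x => (2 : ℝ) ^ k • (ρ (q + ((2 : ℝ) ^ k)⁻¹ • (ρ x - q)) - q) with hθ
  have hθn : ∀ k x, ‖θ k x‖ = ‖ρ x - q‖ := by
    intro k x
    simp only [hθ]
    rw [norm_smul, h.norm hr.mem (h.mem x) (by positivity), Real.norm_of_nonneg (by positivity)]
    field_simp
  have hθl : ∀ k x y, ‖θ k x - θ k y‖ ≤ ‖x - y‖ := by
    intro k x y
    simp only [hθ]
    rw [← smul_sub, sub_sub_sub_cancel_right, norm_smul, Real.norm_of_nonneg (by positivity)]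
    calc (2 : ℝ) ^ k * ‖ρ (q + ((2 : ℝ) ^ k)⁻¹ • (ρ x - q)) - ρ (q + ((2 : ℝ) ^ k)⁻¹ • (ρ y - q))‖
        ≤ (2 : ℝ) ^ k * (((2 : ℝ) ^ k)⁻¹ * ‖ρ x - ρ y‖) := by
          gcongr
          exact h.lipt q _ _ (by positivity)
      _ = ‖ρ x - ρ y‖ := by field_simp
      _ ≤ _ := h.lip _ _
  have hlim : ∀ x, Tendsto (fun k => θ k x) (hyperfilter ℕ : Filter ℕ) (𝓝 (ulim fun k => θ k x)) :=
    fun x => ulim_spec (R := ‖ρ x - q‖) fun k => (hθn k x).le
  have hmem : ∀ x, (ulim fun k => θ k x) ∈ T := by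
    intro x
    refine lim_mem hr (z := fun k => ρ (q + ((2 : ℝ) ^ k)⁻¹ • (ρ x - q))) (fun k => h.mem _)
      (C := ‖ρ x - q‖) (fun k => ?_) (hlim x)
    rw [h.norm hr.mem (h.mem x) (by positivity), mul_comm]
  refine ⟨fun x => ⟨ulim fun k => θ k x, hmem x⟩, ?_, ?_, ?_⟩
  · intro x y
    have := le_of_tendsto ((hlim x).sub (hlim y)).norm (Eventually.of_forall fun k => hθl k x y)
    simpa using this
  · intro x hx
    have h1 := (hlim x).norm
    simp only [hθn, h.fix x hx] at h1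
    have := tendsto_nhds_unique h1 tendsto_const_nhds
    simpa using this
  · intro ε hε
    obtain ⟨r, hr0, h1⟩ := psi_close h hr (ε / 2) (by positivity)
    refine ⟨r, hr0, fun w hw => ?_⟩
    have hw' : ‖(w : X)‖ ≤ r := hw
    have h2 := h1 w w.2 hw'
    have h3 : ∀ k, ‖θ k (ρ (q + w)) - w‖ ≤ ε * ‖w‖ := by
      intro k
      have hk : ‖((2 : ℝ) ^ k)⁻¹ • (w : X)‖ ≤ r := by
        rw [norm_smul, Real.norm_of_nonneg (by positivity)]
        refine le_trans ?_ hw'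
        have : ((2 : ℝ) ^ k)⁻¹ ≤ 1 := inv_le_one_of_one_le₀ (one_le_pow₀ (by norm_num))
        have hn := norm_nonneg (w : X)
        nlinarith
      have h4 := h1 (((2 : ℝ) ^ k)⁻¹ • (w : X)) (T.smul_mem _ w.2) hk
      have h5 : ‖ρ (q + ((2 : ℝ) ^ k)⁻¹ • (ρ (q + w) - q)) - ρ (q + ((2 : ℝ) ^ k)⁻¹ • (w : X))‖ ≤
          ((2 : ℝ) ^ k)⁻¹ * (ε / 2 * ‖w‖) := by
        refine (h.lip _ _).trans ?_
        rw [show q + ((2 : ℝ) ^ k)⁻¹ • (ρ (q + w) - q) - (q + ((2 : ℝ) ^ k)⁻¹ • (w : X)) =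
          ((2 : ℝ) ^ k)⁻¹ • (ρ (q + w) - (q + w)) by module, norm_smul,
          Real.norm_of_nonneg (by positivity)]
        gcongr
        exact h2
      have h6 : θ k (ρ (q + w)) - w =
          (2 : ℝ) ^ k • ((ρ (q + ((2 : ℝ) ^ k)⁻¹ • (ρ (q + w) - q)) -
            ρ (q + ((2 : ℝ) ^ k)⁻¹ • (w : X))) +
            (ρ (q + ((2 : ℝ) ^ k)⁻¹ • (w : X)) - (q + ((2 : ℝ) ^ k)⁻¹ • (w : X)))) := by
        have h7 : (w : X) = (2 : ℝ) ^ k • (((2 : ℝ) ^ k)⁻¹ • (w : X)) := by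
          rw [smul_smul, mul_inv_cancel₀ (by positivity), one_smul]
        simp only [hθ]
        rw [h.fix _ (h.mem (q + w))]
        conv_lhs => rw [h7]
        rw [← smul_sub]
        congr 1
        rw [← h7]
        abel
      rw [h6, norm_smul, Real.norm_of_nonneg (by positivity)]
      calc (2 : ℝ) ^ k * ‖(ρ (q + ((2 : ℝ) ^ k)⁻¹ • (ρ (q + w) - q)) -
            ρ (q + ((2 : ℝ) ^ k)⁻¹ • (w : X))) +
            (ρ (q + ((2 : ℝ) ^ k)⁻¹ • (w : X)) - (q + ((2 : ℝ) ^ k)⁻¹ • (w : X)))‖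
          ≤ (2 : ℝ) ^ k * (((2 : ℝ) ^ k)⁻¹ * (ε / 2 * ‖w‖) + ε / 2 * ‖((2 : ℝ) ^ k)⁻¹ • (w : X)‖) := by
            gcongr
            exact (norm_add_le _ _).trans (add_le_add h5 h4)
        _ = ε * ‖w‖ := by
            rw [norm_smul, Real.norm_of_nonneg (by positivity)]
            have : ‖(w : X)‖ = ‖w‖ := rfl
            rw [this]
            field_simp
            ring
    have h4 : Tendsto (fun k => ‖θ k (ρ (q + w)) - w‖) (hyperfilter ℕ : Filter ℕ)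
        (𝓝 ‖(ulim fun k => θ k (ρ (q + w))) - w‖) := ((hlim _).sub_const _).norm
    exact le_of_tendsto h4 (Eventually.of_forall h3)

end Pool.Agent.N317.FX
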