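import Mathlib
import Pool.Agent.N317.FX.Main

/-! End of the argument. -/

open Set Filter Topology Metric

namespace Pool.Agent.N317.FX

set_option linter.unusedSectionVars false

variable {X : Type*} [NormedAddCommGroup X] [NormedSpace ℝ X] [FiniteDimensional ℝ X]
  {F : Set X} {ρ : X → X} {T : Submodule ℝ X} {q : X}

theorem surj_of_tangent {E : Type*} [NormedAddCommGroup E] [NormedSpace ℝ E]
    [FiniteDimensional ℝ E] {σ : E → E} (h1 : ∀ x y, ‖σ x - σ y‖ ≤ ‖x - y‖)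
    (h2 : ∀ x, ‖σ x‖ = ‖x‖) (h3 : ∀ ε > 0, ∃ r > 0, ∀ w, ‖w‖ ≤ r → ‖σ w - w‖ ≤ ε * ‖w‖) :
    Function.Surjective σ := by
  intro w
  have hσc : Continuous σ := by
    have : LipschitzWith 1 σ := LipschitzWith.of_dist_le_mul fun x y => by
      simpa [dist_eq_norm] using h1 x y
    exact this.continuous
  classical
  set H : ℝ → E → E := fun τ u => if τ = 1 then u else (1 - τ)⁻¹ • σ ((1 - τ) • u) with hH
  have hHn : ∀ τ u, ‖H τ u‖ = ‖u‖ := by
    intro τ u
    by_cases hτ : τ = 1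
    · simp [hH, hτ]
    · have : (1 - τ) ≠ 0 := sub_ne_zero.2 (Ne.symm hτ)
      simp only [hH, hτ, if_false]
      rw [norm_smul, h2, norm_smul, norm_inv]
      have : ‖1 - τ‖ ≠ 0 := norm_ne_zero_iff.2 this
      field_simp
  obtain ⟨u, hu⟩ := homotopy_solve H (by
    intro z _
    apply ContinuousAt.continuousWithinAt
    obtain ⟨τ₀, u₀⟩ := z
    by_cases hτ : τ₀ = 1
    · subst hτ
      rw [Metric.continuousAt_iff]
      intro ε hε
      obtain ⟨r, hr, hr'⟩ := h3 (ε / (4 * (‖u₀‖ + 1))) (by positivity)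
      refine ⟨min (min 1 (ε / 4)) (r / (‖u₀‖ + 1)), by positivity, ?_⟩
      rintro ⟨τ, u⟩ hz
      rw [Prod.dist_eq, max_lt_iff] at hz
      simp only at hz
      obtain ⟨hz1, hz2⟩ := hz
      have a1 : dist u u₀ < 1 := hz2.trans_le ((min_le_left _ _).trans (min_le_left _ _))
      have a2 : dist u u₀ < ε / 4 := hz2.trans_le ((min_le_left _ _).trans (min_le_right _ _))
      have a3 : dist τ 1 < r / (‖u₀‖ + 1) := hz1.trans_le (min_le_right _ _)
      have a4 : ‖u‖ ≤ ‖u₀‖ + 1 := by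
        rw [dist_eq_norm] at a1
        have := norm_sub_norm_le u u₀
        linarith
      have hH1 : H 1 u₀ = u₀ := by simp [hH]
      simp only [hH1]
      by_cases hτ : τ = 1
      · simp only [hH, hτ, if_true]
        linarith
      · have hne : (1 - τ) ≠ 0 := sub_ne_zero.2 (Ne.symm hτ)
        have hnn : ‖1 - τ‖ ≠ 0 := norm_ne_zero_iff.2 hne
        have a5 : ‖(1 - τ) • u‖ ≤ r := by
          rw [norm_smul, ← norm_sub_rev τ 1, ← dist_eq_norm]
          rw [lt_div_iff₀ (by positivity)] at a3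
          calc dist τ 1 * ‖u‖ ≤ dist τ 1 * (‖u₀‖ + 1) := by gcongr
            _ ≤ r := a3.le
        have a6 := hr' _ a5
        have a7 : H τ u - u = (1 - τ)⁻¹ • (σ ((1 - τ) • u) - (1 - τ) • u) := by
          simp only [hH, hτ, if_false]
          rw [smul_sub, smul_smul, inv_mul_cancel₀ hne, one_smul]
        have a8 : ‖H τ u - u‖ ≤ ε / 4 := by
          rw [a7, norm_smul, norm_inv]
          calc ‖1 - τ‖⁻¹ * ‖σ ((1 - τ) • u) - (1 - τ) • u‖
              ≤ ‖1 - τ‖⁻¹ * (ε / (4 * (‖u₀‖ + 1)) * ‖(1 - τ) • u‖) := by gcongr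
            _ = ε / (4 * (‖u₀‖ + 1)) * ‖u‖ := by rw [norm_smul]; field_simp
            _ ≤ ε / (4 * (‖u₀‖ + 1)) * (‖u₀‖ + 1) := by gcongr
            _ = ε / 4 := by field_simp
        calc dist (H τ u) u₀ ≤ dist (H τ u) u + dist u u₀ := dist_triangle _ _ _
          _ < ε := by rw [dist_eq_norm]; linarith
    · have hev : (fun z : ℝ × E => H z.1 z.2) =ᶠ[𝓝 (τ₀, u₀)]
          fun z => (1 - z.1)⁻¹ • σ ((1 - z.1) • z.2) := by
        have : ∀ᶠ z : ℝ × E in 𝓝 (τ₀, u₀), z.1 ≠ 1 := by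
          have hc : ContinuousAt (fun z : ℝ × E => z.1) (τ₀, u₀) := continuousAt_fst
          exact hc.eventually_ne hτ
        filter_upwards [this] with z hz
        simp [hH, hz]
      rw [continuousAt_congr hev]
      have hne : (1 - τ₀) ≠ 0 := sub_ne_zero.2 (Ne.symm hτ)
      refine ContinuousAt.smul ?_ ?_
      · exact ContinuousAt.inv₀ (by fun_prop) hne
      · exact hσc.continuousAt.comp (by fun_prop)) (fun u => by simp [hH]) w ‖w‖ (by
    intro τ _ u hu
    rw [← hu, hHn])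
  refine ⟨u, ?_⟩
  simpa [hH] using hu

theorem hit (h : RS F ρ) (hr : Reg F T q) {a : X} (ha : a ∈ F) {s : ℝ} (hs : 0 < s) :
    ∃ x ∈ F, ρ (a + s • (x - a)) = q := by
  obtain ⟨Θ, hΘ1, hΘ2, hΘ3⟩ := exists_theta h hr
  set σ : T → T := fun w => Θ (ρ (q + w)) with hσ
  have hΨ : ∀ u u' : T, ‖ρ (q + u) - ρ (q + u')‖ ≤ ‖u - u'‖ := by
    intro u u'
    refine (h.lip _ _).trans (le_of_eq ?_)
    rw [add_sub_add_left_eq_sub]; rfl
  have hσ1 : ∀ x y, ‖σ x - σ y‖ ≤ ‖x - y‖ := fun x y => (hΘ1 _ _).trans (hΨ _ _)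
  have hσ2 : ∀ x, ‖σ x‖ = ‖x‖ := by
    intro x
    simp only [hσ]
    rw [hΘ2 _ (h.mem _), psi_norm h hr x.2]; rfl
  have hsurj := surj_of_tangent hσ1 hσ2 hΘ3
  have hproper : ProperSpace T := FiniteDimensional.proper ℝ T
  have hiso : ∀ x y, ‖σ x - σ y‖ = ‖x - y‖ := by
    intro x y
    have := isometry_of_surj_on (F := (univ : Set T)) isClosed_univ (σ := σ)
      (fun x _ y _ => by simpa [dist_eq_norm] using hσ1 x y) (mapsTo_univ _ _)
      (fun y _ => by
        obtain ⟨x, hx⟩ := hsurj y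
        exact ⟨x, mem_univ _, hx⟩) (q := 0) (fun x _ => by simpa [dist_eq_norm] using hσ2 x)
      x (mem_univ _) y (mem_univ _)
    simpa [dist_eq_norm] using this
  obtain ⟨τ, hτ⟩ := hsurj.hasRightInverse
  have hinj : Function.Injective σ := by
    intro x y hxy
    have := hiso x y
    rw [hxy, sub_self, norm_zero] at this
    exact sub_eq_zero.1 (norm_eq_zero.1 this.symm)
  have hτl : ∀ x, τ (σ x) = x := fun x => hinj (hτ (σ x))
  have hτc : Continuous τ := by
    have : LipschitzWith 1 τ := LipschitzWith.of_dist_le_mul fun x y => by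
      have := hiso (τ x) (τ y)
      rw [hτ, hτ] at this
      simp [dist_eq_norm, this]
    exact this.continuous
  have hΘc : Continuous Θ := by
    have : LipschitzWith 1 Θ := LipschitzWith.of_dist_le_mul fun x y => by
      simpa [dist_eq_norm] using hΘ1 x y
    exact this.continuous
  have hρc := h.cont
  set m := min s 1 with hm
  have hm0 : 0 < m := lt_min hs one_pos
  have hσ0 : σ 0 = 0 := norm_eq_zero.1 (by rw [hσ2, norm_zero])
  have hfin : ∀ y ∈ F, τ (Θ y) = 0 → y = q := by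
    intro y hy hτy
    have h1 : Θ y = 0 := by
      rw [← hτ (Θ y), hτy, hσ0]
    have h2 := hΘ2 y hy
    rw [h1, norm_zero] at h2
    exact sub_eq_zero.1 (norm_eq_zero.1 h2.symm)
  obtain ⟨u, hu⟩ := homotopy_solve
    (fun t u => τ (Θ (ρ (a + (s + (1 - s) * t) • (ρ (q + (u : T)) - a))))) (by
      apply Continuous.continuousOn
      fun_prop) (by
      intro u
      have : a + (s + (1 - s) * 1) • (ρ (q + (u : X)) - a) = ρ (q + u) := by
        rw [show s + (1 - s) * 1 = 1 by ring, one_smul]; abel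
      simp only [this]
      rw [h.fix _ (h.mem _)]
      exact hτl u) 0 ((1 + 1 / m) * ‖q - a‖) (by
      intro t ht u hu
      set c := s + (1 - s) * t with hc
      have hcm : m ≤ c := by
        rcases le_total s 1 with hs1 | hs1
        · rw [hm, min_eq_left hs1]
          have := ht.1
          nlinarith
        · rw [hm, min_eq_right hs1]
          have := ht.2
          nlinarith
      have hc0 : 0 < c := hm0.trans_le hcm
      have h1 := hfin _ (h.mem _) hu
      have h2 := h.norm ha (h.mem (q + u)) hc0.le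
      rw [h1] at h2
      have h3 : ‖ρ (q + u) - a‖ ≤ 1 / m * ‖q - a‖ := by
        have h4 : ‖ρ (q + u) - a‖ = 1 / c * ‖q - a‖ := by rw [h2]; field_simp
        rw [h4]
        gcongr
      have h5 : ‖u‖ = ‖ρ (q + u) - q‖ := (psi_norm h hr u.2).symm
      rw [h5]
      calc ‖ρ (q + u) - q‖ ≤ ‖ρ (q + u) - a‖ + ‖a - q‖ := norm_sub_le_norm_sub_add_norm_sub _ _ _
        _ ≤ 1 / m * ‖q - a‖ + ‖q - a‖ := by rw [norm_sub_rev a q]; gcongr
        _ = _ := by ring)
  refine ⟨ρ (q + u), h.mem _, ?_⟩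
  have := hfin _ (h.mem _) hu
  simpa using this

/-- regular points are dense -/
def DenseReg (F : Set X) : Prop := ∀ V : Set X, IsOpen V → ∀ p ∈ F, p ∈ V →
  ∃ q ∈ V, ∃ T : Submodule ℝ X, Reg F T q

theorem S_surj (h : RS F ρ) (hd : DenseReg F) {a : X} (ha : a ∈ F) {s : ℝ} (hs : 0 < s)
    {y : X} (hy : y ∈ F) : ∃ x ∈ F, ρ (a + s • (x - a)) = y := by
  have h1 : ∀ n : ℕ, ∃ x ∈ F, ‖ρ (a + s • (x - a)) - y‖ < 1 / (n + 1) := by
    intro n
    obtain ⟨q, hq, T, hr⟩ := hd (ball y (1 / (n + 1))) isOpen_ball y hy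
      (mem_ball_self (by positivity))
    obtain ⟨x, hx, hxq⟩ := hit h hr ha hs
    refine ⟨x, hx, ?_⟩
    rw [hxq]
    exact mem_ball_iff_norm.1 hq
  choose x hx hxy using h1
  have hb : ∀ n, ‖x n - a‖ ≤ s⁻¹ * (‖y - a‖ + 1) := by
    intro n
    have h2 := h.norm ha (hx n) hs.le
    have h3 : ‖ρ (a + s • (x n - a)) - a‖ ≤ 1 + ‖y - a‖ := by
      calc ‖ρ (a + s • (x n - a)) - a‖ ≤ ‖ρ (a + s • (x n - a)) - y‖ + ‖y - a‖ :=
            norm_sub_le_norm_sub_add_norm_sub _ _ _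
        _ ≤ 1 + ‖y - a‖ := by
          gcongr
          refine (hxy n).le.trans ?_
          rw [div_le_one (by positivity)]
          have : (0 : ℝ) ≤ n := Nat.cast_nonneg n
          linarith
    have h4 : ‖x n - a‖ = s⁻¹ * ‖ρ (a + s • (x n - a)) - a‖ := by rw [h2]; field_simp
    rw [h4]
    gcongr
    linarith
  have hproper : ProperSpace X := FiniteDimensional.proper ℝ X
  obtain ⟨z, -, φ, hφ, hz⟩ := (isCompact_closedBall a (s⁻¹ * (‖y - a‖ + 1))).tendsto_subseq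
    (x := x) (fun n => by rw [mem_closedBall_iff_norm]; exact hb n)
  refine ⟨z, h.closed.mem_of_tendsto hz (Eventually.of_forall fun n => hx _), ?_⟩
  have hρc := h.cont
  have hc : Continuous fun x => ρ (a + s • (x - a)) := by fun_prop
  have h2 := (hc.tendsto z).comp hz
  refine tendsto_nhds_unique h2 ?_
  rw [tendsto_iff_norm_sub_tendsto_zero]
  have h3 : Tendsto (fun n : ℕ => (1 : ℝ) / (φ n + 1)) atTop (𝓝 0) :=
    (tendsto_one_div_add_atTop_nhds_zero_nat (𝕜 := ℝ)).comp hφ.tendsto_atTop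
  refine squeeze_zero (fun n => norm_nonneg _) (fun n => ?_) h3
  exact (hxy (φ n)).le

theorem S_two (h : RS F ρ) (hd : DenseReg F) {a : X} (ha : a ∈ F) {x y : X} (hx : x ∈ F)
    (hy : y ∈ F) : ‖ρ (a + (2 : ℝ) • (x - a)) - ρ (a + (2 : ℝ) • (y - a))‖ = 2 * ‖x - y‖ := by
  apply le_antisymm (h.lipt a x y (by norm_num))
  have hproper : ProperSpace X := FiniteDimensional.proper ℝ X
  set S2 : X → X := fun x => ρ (a + (2 : ℝ) • (x - a)) with hS2
  set Sh : X → X := fun x => ρ (a + (1 / 2 : ℝ) • (x - a)) with hSh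
  have e2 : ∀ x y, ‖S2 x - S2 y‖ ≤ 2 * ‖x - y‖ := fun x y => h.lipt a x y (by norm_num)
  have eh : ∀ x y, ‖Sh x - Sh y‖ ≤ 1 / 2 * ‖x - y‖ := fun x y => h.lipt a x y (by norm_num)
  have key := isometry_of_surj_on h.closed (σ := fun x => Sh (S2 x)) (fun x _ y _ => by
      rw [dist_eq_norm, dist_eq_norm]
      have := eh (S2 x) (S2 y)
      have := e2 x y
      linarith) (fun x _ => h.mem _) (fun y hy => by
      obtain ⟨z, hz, hzy⟩ := S_surj h hd ha (s := 1 / 2) (by norm_num) hy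
      obtain ⟨w, hw, hwz⟩ := S_surj h hd ha (s := 2) (by norm_num) hz
      refine ⟨w, hw, ?_⟩
      simp only [hS2, hSh]
      rw [hwz, hzy]) (q := a) (fun x hx => by
      rw [dist_eq_norm, dist_eq_norm]
      simp only [hS2, hSh]
      rw [h.norm ha (h.mem _) (by norm_num), h.norm ha hx (by norm_num)]
      ring) x hx y hy
  rw [dist_eq_norm, dist_eq_norm] at key
  have := eh (S2 x) (S2 y)
  change 2 * ‖x - y‖ ≤ ‖S2 x - S2 y‖
  linarith

theorem exists_iso (h : RS F ρ) (hd : DenseReg F) (hr : Reg F T q) :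
    Nonempty (F ≃ᵢ T) := by
  classical
  have hq := hr.mem
  -- the doubling map and its inverse
  have h1 : ∀ y : F, ∃ x : F, ρ (q + (2 : ℝ) • ((x : X) - q)) = y := by
    intro y
    obtain ⟨x, hx, hxy⟩ := S_surj h hd hq (s := 2) (by norm_num) y.2
    exact ⟨⟨x, hx⟩, hxy⟩
  choose D hD using h1
  set S : F → F := fun x => ⟨ρ (q + (2 : ℝ) • ((x : X) - q)), h.mem _⟩ with hS
  have hSD : ∀ y, S (D y) = y := fun y => Subtype.ext (hD y)
  have hS2 : ∀ x y : F, ‖(S x : X) - S y‖ = 2 * ‖(x : X) - y‖ := fun x y =>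
    S_two h hd hq x.2 y.2
  have hDS : ∀ y, D (S y) = y := by
    intro y
    have := hS2 (D (S y)) y
    rw [hSD, sub_self, norm_zero] at this
    have h2 : ‖((D (S y) : F) : X) - y‖ = 0 := by linarith
    exact Subtype.ext (sub_eq_zero.1 (norm_eq_zero.1 h2))
  have hDd : ∀ x y : F, ‖(D x : X) - D y‖ = 1 / 2 * ‖(x : X) - y‖ := by
    intro x y
    have := hS2 (D x) (D y)
    rw [hSD, hSD] at this
    linarith
  have hSq : S ⟨q, hq⟩ = ⟨q, hq⟩ := by
    apply Subtype.ext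
    simp only [hS, sub_self, smul_zero, add_zero]
    exact h.fix q hq
  have hDq : D ⟨q, hq⟩ = ⟨q, hq⟩ := by
    conv_lhs => rw [← hSq]
    exact hDS _
  have hDn : ∀ k (x y : F), ‖(D^[k] x : X) - D^[k] y‖ = ((2 : ℝ) ^ k)⁻¹ * ‖(x : X) - y‖ := by
    intro k
    induction k with
    | zero => intro x y; simp
    | succ k ih =>
      intro x y
      rw [Function.iterate_succ_apply', Function.iterate_succ_apply', hDd, ih, pow_succ]
      field_simp
  have hDnq : ∀ k, D^[k] ⟨q, hq⟩ = ⟨q, hq⟩ := fun k => Function.iterate_fixed hDq k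
  have hDnorm : ∀ k (x : F), ‖(D^[k] x : X) - q‖ = ((2 : ℝ) ^ k)⁻¹ * ‖(x : X) - q‖ := by
    intro k x
    have := hDn k x ⟨q, hq⟩
    rwa [hDnq] at this
  have hDnSn : ∀ k (x : F), D^[k] (S^[k] x) = x := by
    intro k
    induction k with
    | zero => intro x; rfl
    | succ k ih =>
      intro x
      rw [Function.iterate_succ_apply, Function.iterate_succ_apply', hDS, ih]
  set Λ : ℕ → F → X := fun k x => (2 : ℝ) ^ k • ((D^[k] x : X) - q) with hΛ
  have hΛn : ∀ k x, ‖Λ k x‖ = ‖(x : X) - q‖ := by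
    intro k x
    simp only [hΛ]
    rw [norm_smul, hDnorm, Real.norm_of_nonneg (by positivity)]
    field_simp
  have hΛd : ∀ k x y, ‖Λ k x - Λ k y‖ = ‖(x : X) - y‖ := by
    intro k x y
    simp only [hΛ]
    rw [← smul_sub, sub_sub_sub_cancel_right, norm_smul, hDn, Real.norm_of_nonneg (by positivity)]
    field_simp
  have hlim : ∀ x, Tendsto (fun k => Λ k x) (hyperfilter ℕ : Filter ℕ) (𝓝 (ulim fun k => Λ k x)) :=
    fun x => ulim_spec (R := ‖(x : X) - q‖) fun k => (hΛn k x).le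
  have hmem : ∀ x, (ulim fun k => Λ k x) ∈ T := by
    intro x
    refine lim_mem hr (z := fun k => (D^[k] x : X)) (fun k => (D^[k] x).2)
      (C := ‖(x : X) - q‖) (fun k => ?_) (hlim x)
    rw [hDnorm, mul_comm]
  set L : F → T := fun x => ⟨ulim fun k => Λ k x, hmem x⟩ with hL
  have hLiso : Isometry L := by
    refine Isometry.of_dist_eq fun x y => ?_
    have h2 := ((hlim x).sub (hlim y)).norm
    simp only [hΛd] at h2
    have h3 := tendsto_nhds_unique h2 tendsto_const_nhds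
    rw [dist_eq_norm, Subtype.dist_eq, dist_eq_norm, ← h3]
    rfl
  suffices hsurj : Function.Surjective L from
    ⟨⟨Equiv.ofBijective L ⟨hLiso.injective, hsurj⟩, hLiso⟩⟩
  intro v
  -- surjectivity
  set x : ℕ → F := fun k => ⟨ρ (q + ((2 : ℝ) ^ k)⁻¹ • (v : X)), h.mem _⟩ with hx
  have hxn : ∀ k, ‖(x k : X) - q‖ = ((2 : ℝ) ^ k)⁻¹ * ‖v‖ := by
    intro k
    simp only [hx]
    rw [psi_norm h hr (T.smul_mem _ v.2), norm_smul, Real.norm_of_nonneg (by positivity)]
    rfl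
  have hxlim : Tendsto (fun k => (2 : ℝ) ^ k • ((x k : X) - q)) (hyperfilter ℕ : Filter ℕ)
      (𝓝 (v : X)) := by
    refine Tendsto.mono_left ?_ hyper_le
    rw [Metric.tendsto_nhds]
    intro ε hε
    obtain ⟨r, hr0, h2⟩ := psi_close h hr (ε / (2 * (‖v‖ + 1))) (by positivity)
    have h3 : Tendsto (fun k : ℕ => ((2 : ℝ) ^ k)⁻¹ * ‖v‖) atTop (𝓝 (0 * ‖v‖)) := by
      refine Tendsto.mul_const _ ?_
      exact (tendsto_pow_atTop_atTop_of_one_lt (by norm_num)).inv_tendsto_atTop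
    rw [zero_mul] at h3
    filter_upwards [h3.eventually (gt_mem_nhds hr0)] with k hk
    have h4 : ‖((2 : ℝ) ^ k)⁻¹ • (v : X)‖ = ((2 : ℝ) ^ k)⁻¹ * ‖v‖ := by
      rw [norm_smul, Real.norm_of_nonneg (by positivity)]; rfl
    have h5 := h2 (((2 : ℝ) ^ k)⁻¹ • (v : X)) (T.smul_mem _ v.2) (by rw [h4]; exact hk.le)
    rw [dist_eq_norm]
    have h6 : (2 : ℝ) ^ k • ((x k : X) - q) - v =
        (2 : ℝ) ^ k • (ρ (q + ((2 : ℝ) ^ k)⁻¹ • (v : X)) - (q + ((2 : ℝ) ^ k)⁻¹ • (v : X))) := by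
      have h7 : (v : X) = (2 : ℝ) ^ k • (((2 : ℝ) ^ k)⁻¹ • (v : X)) := by
        rw [smul_smul, mul_inv_cancel₀ (by positivity), one_smul]
      simp only [hx]
      conv_lhs => rw [h7]
      rw [← smul_sub]
      congr 1
      rw [← h7]
      abel
    rw [h6, norm_smul, Real.norm_of_nonneg (by positivity)]
    calc (2 : ℝ) ^ k * ‖ρ (q + ((2 : ℝ) ^ k)⁻¹ • (v : X)) - (q + ((2 : ℝ) ^ k)⁻¹ • (v : X))‖
        ≤ (2 : ℝ) ^ k * (ε / (2 * (‖v‖ + 1)) * (((2 : ℝ) ^ k)⁻¹ * ‖v‖)) := by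
          rw [← h4]; gcongr
      _ = ε / 2 * (‖v‖ / (‖v‖ + 1)) := by field_simp
      _ ≤ ε / 2 * 1 := by
          gcongr
          rw [div_le_one (by positivity)]; linarith
      _ < ε := by linarith
  set Y : ℕ → F := fun k => S^[k] (x k) with hY
  have hYn : ∀ k, ‖(Y k : X) - q‖ = ‖v‖ := by
    intro k
    have h2 := hDnorm k (Y k)
    simp only [hY] at h2 ⊢
    rw [hDnSn, hxn] at h2
    have : (0 : ℝ) < ((2 : ℝ) ^ k)⁻¹ := by positivity
    exact (mul_left_cancel₀ this.ne' h2).symm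
  have hYlim : Tendsto (fun k => (Y k : X)) (hyperfilter ℕ : Filter ℕ)
      (𝓝 (ulim fun k => (Y k : X))) := by
    refine ulim_spec (R := ‖v‖ + ‖q‖) fun k => ?_
    have := norm_add_le ((Y k : X) - q) q
    rw [sub_add_cancel, hYn] at this
    exact this
  have hZ : (ulim fun k => (Y k : X)) ∈ F :=
    h.closed.mem_of_tendsto hYlim (Eventually.of_forall fun k => (Y k).2)
  refine ⟨⟨_, hZ⟩, ?_⟩
  apply Subtype.ext
  set Z : F := ⟨_, hZ⟩ with hZdef
  have h2 : Tendsto (fun k => Λ k (Y k)) (hyperfilter ℕ : Filter ℕ) (𝓝 (v : X)) := by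
    refine hxlim.congr fun k => ?_
    simp only [hΛ, hY]
    rw [hDnSn]
  have h3 : Tendsto (fun k => ‖Λ k Z - Λ k (Y k)‖) (hyperfilter ℕ : Filter ℕ) (𝓝 0) := by
    simp only [hΛd]
    have := (tendsto_const_nhds (x := (Z : X)) (f := (hyperfilter ℕ : Filter ℕ))).sub hYlim
    have h4 := this.norm
    simpa [hZdef] using h4
  have h4 := ((hlim Z).sub h2).norm
  have h5 := tendsto_nhds_unique h4 h3
  exact sub_eq_zero.1 (norm_eq_zero.1 h5)

end Pool.Agent.N317.FX
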